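import Pool.Agent.Helper67.TG.SIX

set_option autoImplicit false

namespace Pool.Agent.Helper67.TG

open Pool.Agent.Helper30.TriFace Pool.Agent.Helper30.TG Set
open scoped Classical

variable {p : ℕ → ℝ × ℝ} {n : ℕ}

theorem gd1 (hNZ : S_NZ) (hXC : S_XC) (hINS : S_INS) : S_GD1 := by
  intro p n hn hp e he U hU U' hU' heU heU' t ht ht' hg hg'
  by_contra hcon
  push Not at hcon
  obtain ⟨hc0, hc1, hc2⟩ := hcon
  have htop := hINS p n hn hp U hU e he t ht
  obtain ⟨S, hS⟩ : ∃ S, S = (Xc p n).filter fun x => On p e x := ⟨_, rfl⟩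
  have hmemS : ∀ x, x ∈ S ↔ x ∈ Xc p n ∧ On p e x := fun x => by rw [hS, Finset.mem_filter]
  have hnet : ∀ x ∈ S, x.1 ≠ t := by
    intro x hx hxt
    rw [hmemS] at hx
    obtain ⟨k, hk, hke, hkx⟩ := other (e := e) hx.1
    apply edg_ne ht hk hke
    rw [← hxt, ← hx.2.1, ← hkx.1]
  have hcr : cr p n e = S.card := by rw [hS]; rfl
  have hixt : ∀ s, ix p n e s = (S.filter fun x => x.1 < s).card := by
    intro s
    unfold ix
    rw [hS, Finset.filter_filter]
  have hL : (S.filter fun x => x.1 < t).Nonempty := by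
    rw [← Finset.card_pos, ← hixt]; omega
  have hR : (S.filter fun x => ¬ x.1 < t).Nonempty := by
    rw [← Finset.card_pos]
    have h1 := Finset.card_filter_add_card_filter_not (s := S) (fun x : ℝ × ℝ => x.1 < t)
    rw [← hixt] at h1
    have h2 := ix_le (p := p) (n := n) e t
    omega
  obtain ⟨x0, hx0, hmax⟩ := Finset.exists_max_image _ (fun x : ℝ × ℝ => x.1) hL
  obtain ⟨x1, hx1, hmin⟩ := Finset.exists_min_image _ (fun x : ℝ × ℝ => x.1) hR
  rw [Finset.mem_filter] at hx0 hx1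
  have hx1t : t < x1.1 := lt_of_le_of_ne (not_lt.1 hx1.2) (hnet x1 hx1.1).symm
  have hS0 := (hmemS x0).1 hx0.1
  have hS1 := (hmemS x1).1 hx1.1
  have hsame : ∀ x ∈ S, ∀ y ∈ S, x.1 = y.1 → x = y := by
    intro x hx y hy hxy
    rw [hmemS] at hx hy
    refine Prod.ext hxy ?_
    rw [hx.2.1, hy.2.1, hxy]
  -- the index of the left end
  have hix0 : ix p n e x0.1 + 1 = ix p n e t := by
    rw [hixt, hixt]
    have h1 : (S.filter fun x => x.1 < t) = insert x0 (S.filter fun x => x.1 < x0.1) := by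
      ext y
      rw [Finset.mem_insert, Finset.mem_filter, Finset.mem_filter]
      constructor
      · rintro ⟨hy, hyt⟩
        have := hmax y (by rw [Finset.mem_filter]; exact ⟨hy, hyt⟩)
        rcases this.lt_or_eq with h | h
        · exact Or.inr ⟨hy, h⟩
        · exact Or.inl (hsame y hy x0 hx0.1 h)
      · rintro (rfl | ⟨hy, hyt⟩)
        · exact ⟨hx0.1, hx0.2⟩
        · exact ⟨hy, hyt.trans hx0.2⟩
    rw [h1, Finset.card_insert_of_notMem]
    rw [Finset.mem_filter]
    rintro ⟨-, h⟩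
    exact lt_irrefl _ h
  have hix1 : ix p n e x1.1 = ix p n e t := by
    rw [hixt, hixt]
    congr 1
    ext y
    rw [Finset.mem_filter, Finset.mem_filter]
    constructor
    · rintro ⟨hy, hyt⟩
      refine ⟨hy, ?_⟩
      by_contra h
      have := hmin y (by rw [Finset.mem_filter]; exact ⟨hy, h⟩)
      exact absurd hyt (not_lt.2 this)
    · rintro ⟨hy, hyt⟩
      exact ⟨hy, hyt.trans hx1t⟩
  have hmu2 := (hXC p n hn hp).2
  have hm0 : mu p n x0 = 2 := by
    have h1 := hmu2 x0 hS0.1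
    by_contra h
    exact (hc2 x0 hS0.1 hS0.2 (by omega)).1 hix0
  have hm1 : mu p n x1 = 2 := by
    have h1 := hmu2 x1 hS1.1
    by_contra h
    exact (hc2 x1 hS1.1 hS1.2 (by omega)).2 hix1
  -- uniqueness of the second chord
  have huniq : ∀ x : ℝ × ℝ, mu p n x = 2 → On p e x → ∀ g ∈ EE n, g ≠ e → On p g x → ∀ k ∈ EE n, k ≠ e →
      On p k x → k = g := by
    intro x hmu hex g hg hge hgx k hk hke hkx
    by_contra hkg
    have h1 : ({e, g, k} : Finset (ℕ × ℕ)) ⊆ (EE n).filter fun e => On p e x := by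
      intro y hy
      rw [Finset.mem_filter]
      simp only [Finset.mem_insert, Finset.mem_singleton] at hy
      rcases hy with rfl | rfl | rfl
      · exact ⟨he, hex⟩
      · exact ⟨hg, hgx⟩
      · exact ⟨hk, hkx⟩
    have h2 := Finset.card_le_card h1
    have h3 : ({e, g, k} : Finset (ℕ × ℕ)).card = 3 := by
      rw [Finset.card_eq_three]
      exact ⟨e, g, k, hge.symm, hke.symm, fun h => hkg h.symm, rfl⟩
    unfold mu at hmu
    omega
  obtain ⟨g, hgE, hge, hgx⟩ := other (e := e) hS0.1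
  obtain ⟨h, hhE, hhe, hhx⟩ := other (e := e) hS1.1
  have hTt : Tt (sl p) (ic p) (EE n) e g h x0.1 x1.1 := by
    refine ⟨he, hgE, hhE, hge, hhe, hx0.2.trans hx1t, ?_, ?_, ?_, ?_, ?_⟩
    · rw [← hgx.1, ← hS0.2.1]
    · rw [← hhx.1, ← hS1.2.1]
    · intro k hk hke hkx
      have := hNZ p n hn hp e he x0.1 hS0.2.2 k hk hke hkx
      have h2 : On p k x0 := by
        have h3 := this.2.2.2.1
        rwa [← hS0.2.1] at h3
      exact huniq x0 hm0 hS0.2 g hgE hge hgx k hk hke h2
    · intro k hk hke hkx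
      have := hNZ p n hn hp e he x1.1 hS1.2.2 k hk hke hkx
      have h2 : On p k x1 := by
        have h3 := this.2.2.2.1
        rwa [← hS1.2.1] at h3
      exact huniq x1 hm1 hS1.2 h hhE hhe hhx k hk hke h2
    · intro k hk hke s hs0 hs1 heq
      have hopen := open_seg hS0.2.2 hS1.2.2 (show s ∈ uIcc x0.1 x1.1 from by
        rw [mem_uIcc]; left; exact ⟨hs0.le, hs1.le⟩)
      have := hNZ p n hn hp e he s hopen k hk hke heq
      have hy : (s, ln (sl p) (ic p) e s) ∈ S := (hmemS _).2 ⟨this.2.2.2.2, this.2.2.1⟩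
      by_cases hst : s < t
      · have := hmax _ (by rw [Finset.mem_filter]; exact ⟨hy, hst⟩)
        exact absurd hs0 (not_lt.2 this)
      · have := hmin _ (by rw [Finset.mem_filter]; exact ⟨hy, hst⟩)
        exact absurd hs1 (not_lt.2 this)
  have hn1 := (hg.2 g h x0.1 x1.1 t hTt hx0.2 hx1t ht).1 heU
  have hn2 := (hg'.2 g h x0.1 x1.1 t hTt hx0.2 hx1t ht').2 heU'
  exact hn1 hn2

theorem gdc (hSIX : S_SIX) (hGD1 : S_GD1) : S_GDC := by
  intro p n hn hp e he
  set F := (Fc p n).filter fun U => Pool.Agent.Helper30.TG.Good (sl p) (ic p) (EE n) U e with hF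
  have hgood : ∀ U ∈ F, Pool.Agent.Helper30.TG.Good (sl p) (ic p) (EE n) U e := fun U hU =>
    (Finset.mem_filter.1 hU).2
  have hFc : ∀ U ∈ F, U ∈ Fc p n := fun U hU => (Finset.mem_filter.1 hU).1
  have hex : ∀ U ∈ F, ∃ t, EdgAt (sl p) (ic p) (EE n) U e t := fun U hU => (hgood U hU).1
  choose! t ht using hex
  set F1 := F.filter fun U => e ∈ U with hF1
  set F0 := F.filter fun U => ¬ e ∈ U with hF0
  have hcard : F.card = F1.card + F0.card :=
    (Finset.card_filter_add_card_filter_not (s := F) (fun U : Finset (ℕ × ℕ) => e ∈ U)).symm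
  set I1 := F1.image fun U => ix p n e (t U) with hI1
  set I0 := F0.image fun U => ix p n e (t U) with hI0
  have hc1 : I1.card = F1.card := by
    apply Finset.card_image_of_injOn
    intro U hU U' hU' h
    have hU := Finset.mem_filter.1 (Finset.mem_coe.1 hU)
    have hU' := Finset.mem_filter.1 (Finset.mem_coe.1 hU')
    exact inj hSIX hn hp he (hFc U hU.1) (hFc U' hU'.1) (ht U hU.1) (ht U' hU'.1) h
      (iff_of_true hU.2 hU'.2)
  have hc0 : I0.card = F0.card := by
    apply Finset.card_image_of_injOn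
    intro U hU U' hU' h
    have hU := Finset.mem_filter.1 (Finset.mem_coe.1 hU)
    have hU' := Finset.mem_filter.1 (Finset.mem_coe.1 hU')
    exact inj hSIX hn hp he (hFc U hU.1) (hFc U' hU'.1) (ht U hU.1) (ht U' hU'.1) h
      (iff_of_false hU.2 hU'.2)
  have hun : (I1 ∪ I0).card ≤ cr p n e + 1 := by
    rw [← Finset.card_range (cr p n e + 1)]
    apply Finset.card_le_card
    intro i hi
    rw [Finset.mem_range]
    rw [Finset.mem_union, hI1, hI0, Finset.mem_image, Finset.mem_image] at hi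
    rcases hi with ⟨U, -, rfl⟩ | ⟨U, -, rfl⟩
    · exact Nat.lt_succ_of_le (ix_le e _)
    · exact Nat.lt_succ_of_le (ix_le e _)
  set N := (Xc p n).filter fun x => On p e x ∧ 3 ≤ mu p n x with hN
  have hint : (I1 ∩ I0) ⊆ {0, cr p n e} ∪ ((N.image fun x => ix p n e x.1 + 1) ∪
      (N.image fun x => ix p n e x.1)) := by
    intro i hi
    rw [Finset.mem_inter, hI1, hI0, Finset.mem_image, Finset.mem_image] at hi
    obtain ⟨⟨U, hU, hUi⟩, ⟨U', hU', hUi'⟩⟩ := hi
    rw [Finset.mem_filter] at hU hU'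
    have h6 := (hSIX p n hn hp e he U (hFc U hU.1) U' (hFc U' hU'.1) (t U) (t U') (ht U hU.1)
      (ht U' hU'.1) (by rw [hUi, hUi'])).2 (t U) (min_le_left _ _) (le_max_left _ _)
    have h7 := hGD1 p n hn hp e he U (hFc U hU.1) U' (hFc U' hU'.1) hU.2 hU'.2 (t U) h6.1 h6.2
      (hgood U hU.1) (hgood U' hU'.1)
    rw [hUi] at h7
    simp only [Finset.mem_union, Finset.mem_insert, Finset.mem_singleton, Finset.mem_image]
    rcases h7 with h7 | h7 | ⟨x, hx, hon, hmu, h8 | h8⟩
    · exact Or.inl (Or.inl h7)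
    · exact Or.inl (Or.inr h7)
    · exact Or.inr (Or.inl ⟨x, by rw [hN, Finset.mem_filter]; exact ⟨hx, hon, hmu⟩, h8⟩)
    · exact Or.inr (Or.inr ⟨x, by rw [hN, Finset.mem_filter]; exact ⟨hx, hon, hmu⟩, h8⟩)
  have hns : ns p n e = N.card := rfl
  have hic : (I1 ∩ I0).card ≤ 2 + 2 * ns p n e := by
    refine (Finset.card_le_card hint).trans ?_
    refine (Finset.card_union_le _ _).trans ?_
    have h1 : ({0, cr p n e} : Finset ℕ).card ≤ 2 := Finset.card_le_two
    have h2 := Finset.card_union_le (N.image fun x => ix p n e x.1 + 1) (N.image fun x => ix p n e x.1)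
    have h3 := Finset.card_image_le (s := N) (f := fun x : ℝ × ℝ => ix p n e x.1 + 1)
    have h4 := Finset.card_image_le (s := N) (f := fun x : ℝ × ℝ => ix p n e x.1)
    rw [hns]
    omega
  have h9 := Finset.card_union_add_card_inter I1 I0
  omega

end Pool.Agent.Helper67.TG
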