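import Pool.Agent.Helper30.TG.Ori

set_option autoImplicit false

namespace Pool.Agent.Helper67.TG

open Pool.Agent.Helper30.TriFace Pool.Agent.Helper30.TG Set
open scoped Classical

variable {p : ℕ → ℝ × ℝ} {n : ℕ}

theorem edg_ne {ι : Type} {a b : ι → ℝ} {E U : Finset ι} {e k : ι} {t : ℝ} (h : EdgAt a b E U e t)
    (hk : k ∈ E) (hke : k ≠ e) : ln a b k t ≠ ln a b e t := by
  by_cases hU : k ∈ U
  · exact ((h k hk hke).1 hU).ne'
  · exact ((h k hk hke).2 hU).ne

theorem edg_iff {ι : Type} {a b : ι → ℝ} {E U : Finset ι} {e k : ι} {t : ℝ} (h : EdgAt a b E U e t)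
    (hk : k ∈ E) (hke : k ≠ e) : k ∈ U ↔ ln a b e t < ln a b k t := by
  constructor
  · exact (h k hk hke).1
  · intro h1
    by_contra hU
    exact absurd h1 ((h k hk hke).2 hU).not_gt

theorem lin_sign {ι : Type} (a b : ι → ℝ) (e k : ι) (t t' : ℝ)
    (h : ∀ s ∈ uIcc t t', ln a b k s ≠ ln a b e s) (s : ℝ) (hs : s ∈ uIcc t t') :
    ln a b e s < ln a b k s ↔ ln a b e t < ln a b k t := by
  have hcont : Continuous (fun s : ℝ => ln a b k s - ln a b e s) := by
    unfold ln; fun_prop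
  have h1 := intermediate_value_uIcc (a := t) (b := s) hcont.continuousOn
  have h2 : uIcc t s ⊆ uIcc t t' := uIcc_subset_uIcc left_mem_uIcc hs
  have h3 : (0 : ℝ) ∉ uIcc (ln a b k t - ln a b e t) (ln a b k s - ln a b e s) := by
    intro h0
    obtain ⟨r, hr, hr'⟩ := h1 h0
    exact h r (h2 hr) (by simpa [sub_eq_zero] using hr')
  have ht := h t left_mem_uIcc
  have hs' := h s hs
  constructor
  · intro h4
    by_contra h5
    push Not at h5
    apply h3
    rw [mem_uIcc]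
    left
    constructor <;> linarith
  · intro h4
    by_contra h5
    push Not at h5
    apply h3
    rw [mem_uIcc]
    right
    constructor <;> linarith

theorem open_seg {A B t t' s : ℝ} (h1 : (t - A) * (t - B) < 0) (h2 : (t' - A) * (t' - B) < 0)
    (hs : s ∈ uIcc t t') : (s - A) * (s - B) < 0 := by
  rw [mem_uIcc] at hs
  rcases mul_neg_iff.1 h1 with ⟨h3, h4⟩ | ⟨h3, h4⟩ <;> rcases mul_neg_iff.1 h2 with ⟨h5, h6⟩ | ⟨h5, h6⟩ <;>
    rcases hs with ⟨h7, h8⟩ | ⟨h7, h8⟩
  all_goals first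
    | exact mul_neg_of_pos_of_neg (by linarith) (by linarith)
    | exact mul_neg_of_neg_of_pos (by linarith) (by linarith)

/-- no other line meets `e` between two abscissas with the same index -/
theorem no_cross (hNZ : S_NZ) (hn : 3 ≤ n) (hp : Pos p n) {e : ℕ × ℕ} (he : e ∈ EE n) {t t' : ℝ}
    (h1 : (t - (p e.1).1) * (t - (p e.2).1) < 0) (h2 : (t' - (p e.1).1) * (t' - (p e.2).1) < 0)
    (ht : ∀ k ∈ EE n, k ≠ e → ln (sl p) (ic p) k t ≠ ln (sl p) (ic p) e t)
    (ht' : ∀ k ∈ EE n, k ≠ e → ln (sl p) (ic p) k t' ≠ ln (sl p) (ic p) e t')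
    (hix : ix p n e t = ix p n e t') {k : ℕ × ℕ} (hk : k ∈ EE n) (hke : k ≠ e) (s : ℝ)
    (hs : s ∈ uIcc t t') : ln (sl p) (ic p) k s ≠ ln (sl p) (ic p) e s := by
  intro heq
  have hopen := open_seg h1 h2 hs
  obtain ⟨-, -, hon, -, hx⟩ := hNZ p n hn hp e he s hopen k hk hke heq
  have hst : s ≠ t := by rintro rfl; exact ht k hk hke heq
  have hst' : s ≠ t' := by rintro rfl; exact ht' k hk hke heq
  have key : ∀ r r' : ℝ, r < s → s < r' → ix p n e r < ix p n e r' := by
    intro r r' hr hr'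
    unfold ix
    apply Finset.card_lt_card
    rw [Finset.ssubset_iff_of_subset]
    · refine ⟨(s, ln (sl p) (ic p) e s), ?_, ?_⟩
      · rw [Finset.mem_filter]; exact ⟨hx, hon, hr'⟩
      · rw [Finset.mem_filter]; rintro ⟨-, -, h⟩
        exact absurd h (not_lt.2 hr.le)
    · intro x hx
      rw [Finset.mem_filter] at hx ⊢
      exact ⟨hx.1, hx.2.1, by linarith [hx.2.2]⟩
  rw [mem_uIcc] at hs
  rcases hs with ⟨h3, h4⟩ | ⟨h3, h4⟩
  · have := key t t' (lt_of_le_of_ne h3 hst.symm) (lt_of_le_of_ne h4 hst')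
    omega
  · have := key t' t (lt_of_le_of_ne h3 hst'.symm) (lt_of_le_of_ne h4 hst)
    omega

theorem six (hINS : S_INS) (hNZ : S_NZ) : S_SIX := by
  intro p n hn hp e he U hU U' hU' t t' ht ht' hix
  have h1 := hINS p n hn hp U hU e he t ht
  have h2 := hINS p n hn hp U' hU' e he t' ht'
  have hnc : ∀ k ∈ EE n, k ≠ e → ∀ s ∈ uIcc t t', ln (sl p) (ic p) k s ≠ ln (sl p) (ic p) e s :=
    fun k hk hke s hs => no_cross hNZ hn hp he h1 h2 (fun k hk hke => edg_ne ht hk hke)
      (fun k hk hke => edg_ne ht' hk hke) hix hk hke s hs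
  have hsame : ∀ k ∈ EE n, k ≠ e → ∀ s ∈ uIcc t t',
      (ln (sl p) (ic p) e s < ln (sl p) (ic p) k s ↔ ln (sl p) (ic p) e t < ln (sl p) (ic p) k t) :=
    fun k hk hke s hs => lin_sign _ _ e k t t' (hnc k hk hke) s hs
  have hUU : ∀ k ∈ EE n, k ≠ e → (k ∈ U ↔ k ∈ U') := by
    intro k hk hke
    rw [edg_iff ht hk hke, edg_iff ht' hk hke, hsame k hk hke t' right_mem_uIcc]
  refine ⟨hUU, ?_⟩
  intro s hs1 hs2
  have hs : s ∈ uIcc t t' := ⟨hs1, hs2⟩
  have hE : EdgAt (sl p) (ic p) (EE n) U e s := by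
    intro k hk hke
    have h3 := hsame k hk hke s hs
    have h4 := edg_iff ht hk hke
    constructor
    · intro hkU
      exact h3.2 (h4.1 hkU)
    · intro hkU
      have h5 : ¬ ln (sl p) (ic p) e s < ln (sl p) (ic p) k s := fun h => hkU (h4.2 (h3.1 h))
      exact lt_of_le_of_ne (not_lt.1 h5) (hnc k hk hke s hs)
  refine ⟨hE, ?_⟩
  intro k hk hke
  have := hE k hk hke
  rw [← hUU k hk hke]
  exact this

theorem main (hINS : S_INS) (hNZ : S_NZ) : S_SIX := six hINS hNZ

theorem ix_le (e : ℕ × ℕ) (t : ℝ) : ix p n e t ≤ cr p n e := by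
  unfold ix cr
  apply Finset.card_le_card
  intro x hx
  rw [Finset.mem_filter] at hx ⊢
  exact ⟨hx.1, hx.2.1⟩

theorem Fc_sub {U : Finset (ℕ × ℕ)} (hU : U ∈ Fc p n) : U ⊆ EE n := by
  unfold Fc at hU
  rw [Finset.mem_filter, Finset.mem_powerset] at hU
  exact hU.1

/-- through a crossing point on `e` there is another chord -/
theorem other {e : ℕ × ℕ} {x : ℝ × ℝ} (hx : x ∈ Xc p n) :
    ∃ k ∈ EE n, k ≠ e ∧ On p k x := by
  unfold Xc at hx
  rw [Finset.mem_image] at hx
  obtain ⟨⟨a, b⟩, hab, rfl⟩ := hx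
  rw [Finset.mem_filter, Finset.mem_product] at hab
  obtain ⟨⟨ha, hb⟩, hne, h1, h2⟩ := hab
  by_cases h : a = e
  · exact ⟨b, hb, by rintro rfl; exact hne h, h2⟩
  · exact ⟨a, ha, h, h1⟩

theorem inj (hSIX : S_SIX) (hn : 3 ≤ n) (hp : Pos p n) {e : ℕ × ℕ} (he : e ∈ EE n) {U U' : Finset (ℕ × ℕ)}
    (hU : U ∈ Fc p n) (hU' : U' ∈ Fc p n) {t t' : ℝ} (ht : EdgAt (sl p) (ic p) (EE n) U e t)
    (ht' : EdgAt (sl p) (ic p) (EE n) U' e t') (h : ix p n e t = ix p n e t') (heU : e ∈ U ↔ e ∈ U') :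
    U = U' := by
  have h1 := (hSIX p n hn hp e he U hU U' hU' t t' ht ht' h).1
  ext k
  by_cases hk : k ∈ EE n
  · by_cases hke : k = e
    · rw [hke]; exact heU
    · exact h1 k hk hke
  · exact ⟨fun h => absurd (Fc_sub hU h) hk, fun h => absurd (Fc_sub hU' h) hk⟩

theorem seg (hNZ : S_NZ) (hSIX : S_SIX) : S_SEG := by
  intro p n hn hp e he
  set F := (Fc p n).filter fun U => e ∈ Bd (sl p) (ic p) (EE n) U with hF
  have hex : ∀ U ∈ F, ∃ t, EdgAt (sl p) (ic p) (EE n) U e t := by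
    intro U hU
    rw [hF, Finset.mem_filter] at hU
    have := hU.2
    unfold Bd at this
    rw [Finset.mem_filter] at this
    exact this.2
  choose! t ht using hex
  have hFc : ∀ U ∈ F, U ∈ Fc p n := fun U hU => (Finset.mem_filter.1 hU).1
  have hinj : ∀ U ∈ F, ∀ U' ∈ F, (decide (e ∈ U) = decide (e ∈ U')) → ix p n e (t U) = ix p n e (t U') →
      U = U' := by
    intro U hU U' hU' h1 h2
    exact inj hSIX hn hp he (hFc U hU) (hFc U' hU') (ht U hU) (ht U' hU') h2 (by simpa using h1)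
  constructor
  · have h1 : F.card ≤ ((Finset.univ : Finset Bool) ×ˢ Finset.range (cr p n e + 1)).card := by
      apply Finset.card_le_card_of_injOn (fun U => (decide (e ∈ U), ix p n e (t U)))
      · intro U hU
        simp only [Finset.coe_product, Finset.coe_univ, Finset.coe_range, mem_prod, mem_univ, true_and, mem_Iio]
        exact Nat.lt_succ_of_le (ix_le e _)
      · intro U hU U' hU' h
        simp only [Prod.mk.injEq] at h
        exact hinj U hU U' hU' h.1 h.2
    rw [Finset.card_product, Finset.card_range, Finset.card_univ, Fintype.card_bool] at h1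
    omega
  · intro hPE
    have h0 : ∀ s, ix p n e s = 0 := by
      intro s
      unfold ix
      rw [Finset.card_eq_zero, Finset.filter_eq_empty_iff]
      rintro x hx ⟨hon, -⟩
      obtain ⟨k, hk, hke, hkx⟩ := other (e := e) hx
      exact (hNZ p n hn hp e he x.1 hon.2 k hk hke (by rw [← hon.1, ← hkx.1])).1 hPE
    rw [Finset.card_le_one]
    intro U hU U' hU'
    apply hinj U hU U' hU'
    · have h1 := (hFc U hU)
      have h2 := (hFc U' hU')
      unfold Fc at h1 h2
      rw [Finset.mem_filter] at h1 h2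
      have h3 := h1.2.2 e hPE
      have h4 := h2.2.2 e hPE
      simp [h3, h4]
    · rw [h0, h0]

end Pool.Agent.Helper67.TG
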